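import Pool.Agent.Helper68.TG.Goals

/-! # Project TG (MP_a41896_nt), packet TG-FLAT-NRM: the norm polynomial -/

set_option autoImplicit false

open MvPolynomial

namespace Pool.Agent.Helper23.TG.NRM

open Pool.Agent.Helper68.TG

section

variable {σ : Type} [Fintype σ] [DecidableEq σ]

/-- the product of all linear forms -/
noncomputable def FF (σ : Type) [Fintype σ] [DecidableEq σ] : MvPolynomial (σ ⊕ σ) ℤ :=
  ∏ ε : σ → Bool, ∑ i, sg (ε i) * (X (Sum.inl i) * X (Sum.inr i))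

lemma map_sg {A B : Type} [CommRing A] [CommRing B] (f : A →+* B) (b : Bool) :
    f (sg b) = sg b := by
  cases b <;> simp [sg]

lemma aeval_FF {A : Type} [CommRing A] (Ψ u : σ → A) :
    aeval (Sum.elim Ψ u) (FF σ) = ∏ ε : σ → Bool, ∑ i, sg (ε i) * (Ψ i * u i) := by
  unfold FF
  rw [map_prod]
  refine Finset.prod_congr rfl (fun ε _ => ?_)
  rw [map_sum]
  refine Finset.sum_congr rfl (fun i _ => ?_)
  rw [map_mul, map_mul, aeval_X, aeval_X, Sum.elim_inl, Sum.elim_inr]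
  congr 1
  exact map_sg (aeval (Sum.elim Ψ u) : MvPolynomial (σ ⊕ σ) ℤ →ₐ[ℤ] A).toRingHom (ε i)

/-- the sign of a variable -/
def sn (v0 v : σ ⊕ σ) : ℤ := if v = v0 then -1 else 1

/-- change of sign of one variable -/
noncomputable def ss (v0 : σ ⊕ σ) : MvPolynomial (σ ⊕ σ) ℤ →ₐ[ℤ] MvPolynomial (σ ⊕ σ) ℤ :=
  aeval (fun v => C (sn v0 v) * X v)

lemma ss_monomial (v0 : σ ⊕ σ) (u : σ ⊕ σ →₀ ℕ) (c : ℤ) :
    ss v0 (monomial u c) = monomial u ((-1) ^ u v0 * c) := by
  unfold ss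
  rw [aeval_monomial, Finsupp.prod_fintype _ _ (by intro i; simp)]
  simp only [mul_pow]
  rw [Finset.prod_mul_distrib]
  have h1 : ∏ v, (C (sn v0 v) : MvPolynomial (σ ⊕ σ) ℤ) ^ u v = C ((-1) ^ u v0) := by
    rw [Finset.prod_eq_single v0]
    · simp [sn]
    · intro b _ hb
      simp [sn, hb]
    · intro h; exact absurd (Finset.mem_univ _) h
  rw [h1]
  have h2 : (monomial u ((-1) ^ u v0 * c) : MvPolynomial (σ ⊕ σ) ℤ) =
      C ((-1) ^ u v0 * c) * ∏ v, X v ^ u v := by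
    rw [monomial_eq, Finsupp.prod_fintype _ _ (by intro i; simp)]
  rw [h2, C_mul]
  simp only [algebraMap_eq]
  ring

lemma coeff_ss (v0 : σ ⊕ σ) (m : σ ⊕ σ →₀ ℕ) (F : MvPolynomial (σ ⊕ σ) ℤ) :
    coeff m (ss v0 F) = (-1) ^ m v0 * coeff m F := by
  induction F using MvPolynomial.induction_on' with
  | monomial u a =>
    rw [ss_monomial, coeff_monomial, coeff_monomial]
    split_ifs with h
    · rw [h]
    · simp
  | add p q hp hq => rw [map_add, coeff_add, coeff_add, hp, hq]; ring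

/-- flip of one sign -/
def fl (i0 : σ) (ε : σ → Bool) : σ → Bool := Function.update ε i0 (!ε i0)

lemma fl_fl (i0 : σ) (ε : σ → Bool) : fl i0 (fl i0 ε) = ε := by
  unfold fl
  simp

lemma ss_FF (i0 : σ) : ss (Sum.inl i0) (FF σ) = FF σ := by
  have h : ∀ ε : σ → Bool, ss (Sum.inl i0) (∑ i, sg (ε i) * (X (Sum.inl i) * X (Sum.inr i))) =
      ∑ i, sg (fl i0 ε i) * (X (Sum.inl i) * X (Sum.inr i)) := by
    intro ε
    rw [map_sum]
    refine Finset.sum_congr rfl (fun i _ => ?_)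
    rw [map_mul, map_mul]
    have h1 : ss (Sum.inl i0) (sg (ε i) : MvPolynomial (σ ⊕ σ) ℤ) = sg (ε i) :=
      map_sg (ss (Sum.inl i0)).toRingHom (ε i)
    have h2 : ss (Sum.inl i0) (X (Sum.inr i) : MvPolynomial (σ ⊕ σ) ℤ) = X (Sum.inr i) := by
      simp [ss, sn]
    rw [h1, h2]
    by_cases hi : i = i0
    · subst hi
      have h3 : ss (Sum.inl i) (X (Sum.inl i) : MvPolynomial (σ ⊕ σ) ℤ) = -X (Sum.inl i) := by
        simp [ss, sn]
      rw [h3]
      unfold fl
      rw [Function.update_self]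
      cases ε i <;> simp [sg]
    · have h3 : ss (Sum.inl i0) (X (Sum.inl i) : MvPolynomial (σ ⊕ σ) ℤ) = X (Sum.inl i) := by
        simp [ss, sn, hi]
      rw [h3]
      unfold fl
      rw [Function.update_of_ne hi]
  unfold FF
  rw [map_prod]
  simp only [h]
  exact Fintype.prod_bijective (fl i0) (Function.Involutive.bijective (fl_fl i0)) _ _
    (fun ε => rfl)

lemma even_of_mem (m : σ ⊕ σ →₀ ℕ) (hm : m ∈ (FF σ).support) (i : σ) : Even (m (Sum.inl i)) := by
  have h := coeff_ss (Sum.inl i) m (FF σ)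
  rw [ss_FF] at h
  have hc : coeff m (FF σ) ≠ 0 := mem_support_iff.1 hm
  by_contra ho
  rw [Nat.not_even_iff_odd] at ho
  rw [ho.neg_one_pow] at h
  apply hc
  linarith

/-- half of the exponents -/
noncomputable def half (m : σ ⊕ σ →₀ ℕ) : σ ⊕ σ →₀ ℕ :=
  Finsupp.equivFunOnFinite.symm (Sum.elim (fun i => m (Sum.inl i) / 2) (fun i => m (Sum.inr i)))

theorem main : ∃ N : MvPolynomial (σ ⊕ σ) ℤ, IsNorm N := by
  refine ⟨∑ m ∈ (FF σ).support, monomial (half m) (coeff m (FF σ)), ?_⟩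
  intro A _ Ψ u
  rw [← aeval_FF Ψ u]
  conv_rhs => rw [(FF σ).as_sum]
  rw [map_sum, map_sum]
  refine Finset.sum_congr rfl (fun m hm => ?_)
  rw [aeval_monomial, aeval_monomial, Finsupp.prod_fintype _ _ (by intro i; simp),
    Finsupp.prod_fintype _ _ (by intro i; simp)]
  congr 1
  rw [Fintype.prod_sum_type, Fintype.prod_sum_type]
  congr 1
  · refine Finset.prod_congr rfl (fun i _ => ?_)
    have h : 2 * (m (Sum.inl i) / 2) = m (Sum.inl i) :=
      Nat.two_mul_div_two_of_even (even_of_mem m hm i)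
    have h2 : half m (Sum.inl i) = m (Sum.inl i) / 2 := rfl
    rw [Sum.elim_inl, Sum.elim_inl, h2, ← pow_mul, h]

end

theorem t_NRM : Pool.Agent.Helper68.TG.NRM := fun _ _ _ => main

end Pool.Agent.Helper23.TG.NRM
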