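import Pool.Agent.Helper92.TG.GoalsX
import Pool.Agent.Helper92.TN.MainI
import Pool.Agent.Helper44.T3.CASB

/-! Packet TG-EXTS (MP_a41896_nt): an extension with a generic point close to `0`. -/

set_option autoImplicit false

open Polynomial

namespace Pool.Agent.Helper23.TG.EXTS

open WeierstrassCurve
open Pool.Agent.Helper29.BL Pool.Agent.Helper42.SG
open Pool.Agent.Helper60.T3 (WL zd IP)
open Pool.Agent.Helper92.TG
open Pool.Agent.Helper92.TN (acl)

noncomputable section

section core

variable {K F Ω : Type} [Field K] [Field F] [Field Ω] [Algebra K F] [Algebra F Ω] [Algebra K Ω]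
  [IsScalarTower K F Ω]

theorem alg_of_acl {s : Ω} (h : s ∈ acl K (Set.range (algebraMap F Ω))) : IsAlgebraic F s := by
  rw [(Pool.Agent.Helper92.TN.MainI.th_ACLA K Ω _ ∅).1] at h
  obtain ⟨p, hp0, hp⟩ := h
  have hle : IntermediateField.adjoin K (Set.range (algebraMap F Ω)) ≤
      (IsScalarTower.toAlgHom K F Ω).fieldRange := by
    rw [IntermediateField.adjoin_le_iff]
    rintro _ ⟨c, rfl⟩
    exact ⟨c, rfl⟩
  have hl : p.map (algebraMap (IntermediateField.adjoin K (Set.range (algebraMap F Ω))) Ω) ∈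
      Polynomial.lifts (algebraMap F Ω) := by
    rw [Polynomial.lifts_iff_coeff_lifts]
    intro n
    rw [Polynomial.coeff_map]
    obtain ⟨c, hc⟩ := hle (p.coeff n).2
    exact ⟨c, hc⟩
  obtain ⟨q, hq⟩ := hl
  have hq' : q.map (algebraMap F Ω) =
      p.map (algebraMap (IntermediateField.adjoin K (Set.range (algebraMap F Ω))) Ω) := hq
  refine ⟨q, ?_, ?_⟩
  · rintro rfl
    rw [Polynomial.map_zero] at hq'
    have := (Polynomial.map_eq_zero (algebraMap
      (IntermediateField.adjoin K (Set.range (algebraMap F Ω))) Ω)).1 hq'.symm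
    exact hp0 this
  · rw [← Polynomial.eval_map_algebraMap, hq', Polynomial.eval_map_algebraMap]
    exact hp

variable [CharZero K] [DecidableEq F] [DecidableEq Ω] [IsAlgClosed Ω]

theorem core (W : Affine K) [W.IsElliptic] {s : Ω} (hs : Transcendental F s) :
    ∃ Q : (WL Ω W).Point, xc Q = s ∧ ∀ P : (WL F W).Point,
      Transcendental K (xc (mp (IsScalarTower.toAlgHom K F Ω) P + Q)) := by
  haveI : CharZero Ω := charZero_of_injective_algebraMap (algebraMap K Ω).injective
  obtain ⟨Q, hQ0, hQ⟩ := Pool.Agent.Helper44.T3.CASB.exists_pt (WL Ω W) s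
  refine ⟨Q, hQ, ?_⟩
  intro P hal
  apply hs
  apply alg_of_acl (K := K)
  have hAC := Pool.Agent.Helper92.TN.MainI.th_ACLP K Ω W (Set.range (algebraMap F Ω))
  set P' := mp (IsScalarTower.toAlgHom K F Ω) P with hP'
  have h1 : IP (acl K (Set.range (algebraMap F Ω)) : Set Ω) (P' + Q) := by
    apply (hAC (P' + Q) 0 0).1
    rw [(Pool.Agent.Helper92.TN.MainI.th_ACLA K Ω _ ∅).1]
    exact hal.tower_top _
  have h2 : IP (acl K (Set.range (algebraMap F Ω)) : Set Ω) P' := by
    apply (hAC P' 0 0).1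
    apply (Pool.Agent.Helper92.TN.MainI.th_ACLA K Ω (Set.range (algebraMap F Ω)) ∅).2.1
    rw [hP']
    cases P with
    | zero => exact ⟨0, by rw [map_zero]; rfl⟩
    | some x y hxy => exact ⟨x, rfl⟩
  have h3 := ((hAC (P' + Q) P' 0).2.2 h1 h2).2.1
  rw [add_sub_cancel_left] at h3
  rcases h3 with h3 | h3
  · exact absurd h3 hQ0
  · rw [← hQ]
    exact h3.1

end core

theorem main (h : VAL) (K : Type) [Field K] [CharZero K] (W : Affine K) (hW : W.IsElliptic)
    (F : Type) [Field F] [DecidableEq F] [Algebra K F] (Ω : Type) [Field Ω] [IsAlgClosed Ω]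
    [Algebra F Ω] (s : Ω) (hs : Transcendental F s) :
    ∃ (Ω : Type) (_ : Field Ω) (_ : DecidableEq Ω)
      (_ : Algebra K Ω) (j : F →ₐ[K] Ω) (V : ValuationSubring Ω) (Q : (WL Ω W).Point),
      (∀ c : F, j c ∈ V) ∧ xc Q ∉ V ∧ Transcendental K (xc Q) ∧
      ∀ P : (WL F W).Point,
        Transcendental K (xc (mp j P + Q)) := by
  letI : DecidableEq Ω := Classical.decEq _
  letI : Algebra K Ω := ((algebraMap F Ω).comp (algebraMap K F)).toAlgebra
  haveI : IsScalarTower K F Ω := IsScalarTower.of_algebraMap_eq fun _ => rfl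
  obtain ⟨V, hV, hsV⟩ := h F Ω _ hs
  obtain ⟨Q, hQ, hQ'⟩ := core W hs
  refine ⟨Ω, inferInstance, inferInstance, inferInstance, IsScalarTower.toAlgHom K F Ω, V, Q,
    fun c => hV c, ?_, ?_, hQ'⟩
  · rw [hQ]
    exact hsV
  · rw [hQ]
    exact hs.restrictScalars (algebraMap K F).injective

theorem t (h : VAL) : Pool.Agent.Helper92.TG.EXTS := by
  intro K _ _ W hW F _ _ _
  have hs : Transcendental F
      (algebraMap (RatFunc F) (AlgebraicClosure (RatFunc F)) RatFunc.X) := by
    rw [transcendental_algebraMap_iff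
      (algebraMap (RatFunc F) (AlgebraicClosure (RatFunc F))).injective]
    exact RatFunc.transcendental_X
  exact main h K W hW F (AlgebraicClosure (RatFunc F)) _ hs

end

end Pool.Agent.Helper23.TG.EXTS
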